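import Mathlib
import Pool.Agent.TH932.S2.G.Crit

set_option autoImplicit false

/-!
# The residues modulo three of the backward orbits of Conway's permutation

The orbit of `8` under Conway's permutation `T` is infinite if and only if the residues modulo `3` of
`8, T⁻¹ 8, T⁻² 8, ...` have many different blocks on every scale. The point is that `T⁻¹` (not `T`)
is a map of the kind treated by the general theorem on block complexity in the library
(`Pool.Agent.TH932.S2.G`): `3 T⁻¹ x = 2 x`, `4 x - 1`, `4 x + 1` for `x = 0, 1, 2` modulo `3`.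
-/

namespace Pool.Agent.Results.MP_190a72_nt.ResidueBlocks

open Filter Topology Pool.Agent.TH932.S2.G

/-- Conway's permutation -/
def T (n : ℕ) : ℕ :=
  if n % 2 = 0 then 3 * (n / 2) else if n % 4 = 1 then 3 * (n / 4) + 1 else 3 * ((n + 1) / 4) - 1

/-- the inverse permutation -/
def S (n : ℕ) : ℕ :=
  if n % 3 = 0 then 2 * (n / 3) else if n % 3 = 1 then 4 * (n / 3) + 1 else 4 * ((n + 1) / 3) - 1

/-- the number of different blocks of `N` consecutive residues modulo `3` in the sequence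
`n, T⁻¹ n, T⁻² n, ...` -/
noncomputable def blocks (n N : ℕ) : ℕ :=
  (Set.range fun i : ℕ => fun j : Fin N => S^[i + j] n % 3).ncard

/-- the number of different blocks of `N` consecutive residues modulo `3` among the first `h` terms
of the sequence `n, T⁻¹ n, T⁻² n, ...` -/
noncomputable def blocksUpTo (n h N : ℕ) : ℕ :=
  ((fun i : ℕ => fun j : Fin N => S^[i + j] n % 3) '' {i | i + N ≤ h}).ncard

lemma TS (n : ℕ) : T (S n) = n := by
  unfold T S
  split_ifs <;> omega

lemma ST (n : ℕ) : S (T n) = n := by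
  unfold T S
  split_ifs <;> omega

lemma TS_iter (k n : ℕ) : T^[k] (S^[k] n) = n :=
  Function.LeftInverse.iterate TS k n

lemma ST_iter (k n : ℕ) : S^[k] (T^[k] n) = n :=
  Function.LeftInverse.iterate ST k n

lemma S_inj : Function.Injective S := Function.LeftInverse.injective TS

lemma per_iff (k n : ℕ) : T^[k] n = n ↔ S^[k] n = n := by
  constructor
  · intro h
    have := ST_iter k n
    rwa [h] at this
  · intro h
    have := TS_iter k n
    rwa [h] at this

/-- the inverse permutation on the integers -/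
def Si (x : ℤ) : ℤ :=
  if x % 3 = 0 then 2 * (x / 3) else if x % 3 = 1 then 4 * (x / 3) + 1 else 4 * (x / 3) + 3

/-- exponents -/
def dl (a : ZMod 3) : ℕ := if a = 0 then 1 else 2

/-- constant terms -/
def bt (a : ZMod 3) : ℤ := if a = 0 then 0 else if a = 1 then -1 else 1

lemma hG (x : ℤ) : ((3 : ℕ) : ℤ) * Si x = ((2 : ℕ) : ℤ) ^ dl (x : ZMod 3) * x + bt (x : ZMod 3) := by
  have e0 : (x : ZMod 3) = 0 ↔ x % 3 = 0 := by
    rw [ZMod.intCast_zmod_eq_zero_iff_dvd]
    omega
  have e1 : (x : ZMod 3) = 1 ↔ x % 3 = 1 := by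
    have h : (x : ZMod 3) = ((1 : ℤ) : ZMod 3) ↔ (x : ℤ) % 3 = 1 % 3 :=
      ZMod.intCast_eq_intCast_iff' x 1 3
    rw [Int.cast_one] at h
    rw [h]
    norm_num
  unfold Si dl bt
  rcases (by omega : x % 3 = 0 ∨ x % 3 = 1 ∨ x % 3 = 2) with h | h | h
  · rw [if_pos h, if_pos (e0.2 h), if_pos (e0.2 h)]
    push_cast
    omega
  · rw [if_neg (by omega), if_pos h, if_neg (by rw [e0]; omega), if_neg (by rw [e0]; omega),
      if_pos (e1.2 h)]
    push_cast
    omega
  · rw [if_neg (by omega), if_neg (by omega), if_neg (by rw [e0]; omega),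
      if_neg (by rw [e0]; omega), if_neg (by rw [e1]; omega)]
    push_cast
    omega

lemma Si_cast (n : ℕ) : Si (n : ℤ) = ((S n : ℕ) : ℤ) := by
  unfold Si S
  split_ifs <;> omega

lemma Si_iter (n k : ℕ) : Si^[k] (n : ℤ) = ((S^[k] n : ℕ) : ℤ) := by
  induction k with
  | zero => rfl
  | succ k ih => rw [Function.iterate_succ_apply', Function.iterate_succ_apply', ih, Si_cast]

/-- comparison of the two ways to write the blocks -/
lemma ncard_eq (n N : ℕ) (s : Set ℕ) :
    ((fun i : ℕ => fun j : Fin N => ((Si^[i + j] (n : ℤ) : ℤ) : ZMod 3)) '' s).ncard =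
      ((fun i : ℕ => fun j : Fin N => S^[i + j] n % 3) '' s).ncard := by
  have hf : (fun i : ℕ => fun j : Fin N => S^[i + j] n % 3) =
      (fun v : Fin N → ZMod 3 => fun j => (v j).val) ∘
        (fun i : ℕ => fun j : Fin N => ((Si^[i + j] (n : ℤ) : ℤ) : ZMod 3)) := by
    funext i
    funext j
    simp only [Function.comp]
    rw [Si_iter, Int.cast_natCast, ZMod.val_natCast]
  rw [hf, Set.image_comp]
  symm
  apply Set.ncard_image_of_injective
  intro v w hvw
  funext j
  exact ZMod.val_injective 3 (congrFun hvw j)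

lemma blocks_eq (n N : ℕ) : Gc.blkAll 3 Si n N = blocks n N := by
  unfold Gc.blkAll blocks
  rw [← Set.image_univ, ← Set.image_univ]
  exact ncard_eq n N Set.univ

lemma blocksUpTo_eq (n h N : ℕ) : Gc.blk 3 Si n h N = blocksUpTo n h N :=
  ncard_eq n N _

/-- the orbit is infinite if and only if the backward trajectory is unbounded -/
lemma div_iff (n : ℕ) : (∀ R : ℤ, ∃ k, R < |Si^[k] (n : ℤ)|) ↔ ∀ k, 1 ≤ k → T^[k] n ≠ n := by
  constructor
  · intro h k hk hT
    have hS : Function.IsPeriodicPt S k n := (per_iff k n).1 hT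
    obtain ⟨j, hj⟩ := h ((∑ i ∈ Finset.range k, S^[i] n : ℕ) : ℤ)
    rw [Si_iter, Nat.abs_cast, ← hS.iterate_mod_apply j] at hj
    have h1 : S^[j % k] n ≤ ∑ i ∈ Finset.range k, S^[i] n :=
      Finset.single_le_sum (f := fun i => S^[i] n) (fun _ _ => Nat.zero_le _)
        (Finset.mem_range.2 (Nat.mod_lt _ hk))
    have h2 : (∑ i ∈ Finset.range k, S^[i] n) < S^[j % k] n := by exact_mod_cast hj
    omega
  · intro h R
    by_contra hcon
    push Not at hcon
    have hinj : Function.Injective fun k : ℕ => S^[k] n := by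
      have key : ∀ a b : ℕ, a < b → S^[a] n ≠ S^[b] n := by
        intro a b hab he
        have h1 : S^[a] (S^[b - a] n) = S^[a] n := by
          rw [← Function.iterate_add_apply, Nat.add_sub_cancel' hab.le, he]
        exact h (b - a) (by omega) ((per_iff _ _).2 (S_inj.iterate a h1))
      intro a b hab
      rcases lt_trichotomy a b with h1 | h1 | h1
      · exact absurd hab (key a b h1)
      · exact h1
      · exact absurd hab.symm (key b a h1)
    have hfin : (Set.range fun k : ℕ => S^[k] n).Finite := by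
      refine (Set.finite_Iic R.toNat).subset ?_
      rintro _ ⟨k, rfl⟩
      have h1 := hcon k
      rw [Si_iter, Nat.abs_cast] at h1
      rw [Set.mem_Iic]
      simp only
      omega
    exact Set.infinite_range_of_injective hinj hfin

/-- **Result.** (0) `S` is the inverse of `T`. (1) If `n` does not lie on a cycle of `T`, then
`blocks n N / N` tends to infinity with `N`. (2) For every `A > 0` there is `K` such that for all
`N₀ ≥ K + 3` and all `n ≤ 2 ^ N₀`: `n` does not lie on a cycle of `T` if and only if for every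
`N ≥ N₀` more than `A N` different blocks of `N` consecutive residues modulo `3` occur among the first
`N ^ K` terms of `n, T⁻¹ n, T⁻² n, ...`. (3) The case `n = 8`. (4) For every `A` there is `K` such that,
for all `N ≥ K + 3`: if at most `A N` different blocks of length `N` occur among the first `N ^ K`
terms of `8, T⁻¹ 8, T⁻² 8, ...`, then `8` lies on a cycle of `T` of length at most `N ^ K`, all of
whose elements are at most `2 ^ (K N)`. -/
theorem result :
    (∀ n, T (S n) = n ∧ S (T n) = n) ∧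
    (∀ n : ℕ, (∀ k, 1 ≤ k → T^[k] n ≠ n) →
      Tendsto (fun N : ℕ => (blocks n N : ℝ) / N) atTop atTop) ∧
    (∀ A : ℝ, 0 < A → ∃ K : ℕ, ∀ n N₀ : ℕ, K + 3 ≤ N₀ → n ≤ 2 ^ N₀ →
      ((∀ k, 1 ≤ k → T^[k] n ≠ n) ↔
        ∀ N : ℕ, N₀ ≤ N → A * N < blocksUpTo n (N ^ K) N)) ∧
    (∀ A : ℝ, 0 < A → ∃ K : ℕ, ((∀ k, 1 ≤ k → T^[k] 8 ≠ 8) ↔
        ∀ N : ℕ, K + 3 ≤ N → A * N < blocksUpTo 8 (N ^ K) N)) ∧
    (∀ A : ℝ, ∃ K : ℕ, ∀ N : ℕ, K + 3 ≤ N → (blocksUpTo 8 (N ^ K) N : ℝ) ≤ A * N →
      (∃ k, 1 ≤ k ∧ k ≤ N ^ K ∧ T^[k] 8 = 8) ∧ ∀ j, S^[j] 8 ≤ 2 ^ (K * N)) := by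
  have h2 : ∀ A : ℝ, 0 < A → ∃ K : ℕ, ∀ n N₀ : ℕ, K + 3 ≤ N₀ → n ≤ 2 ^ N₀ →
      ((∀ k, 1 ≤ k → T^[k] n ≠ n) ↔
        ∀ N : ℕ, N₀ ≤ N → A * N < blocksUpTo n (N ^ K) N) := by
    intro A hA
    obtain ⟨K, hK⟩ := Gc.crit (d := 3) (q := 2) (by norm_num) le_rfl (by norm_num) hG A hA
    refine ⟨K, fun n N₀ h1 hn => ?_⟩
    rw [← div_iff, hK n N₀ (by omega) (by rw [Nat.abs_cast]; exact_mod_cast hn)]
    simp only [blocksUpTo_eq]
  have h3 : ∀ N : ℕ, 3 ≤ N → 8 ≤ 2 ^ N := fun N hN =>
    le_trans (by norm_num : 8 ≤ 2 ^ 3) (Nat.pow_le_pow_right (by norm_num) hN)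
  refine ⟨fun n => ⟨TS n, ST n⟩, fun n hn => ?_, h2, fun A hA => ?_, fun A => ?_⟩
  · have := Gc.unb (d := 3) (q := 2) (by norm_num) le_rfl (by norm_num) hG ((div_iff n).2 hn)
    simpa only [blocks_eq] using this
  · obtain ⟨K, hK⟩ := h2 A hA
    exact ⟨K, hK 8 (K + 3) le_rfl (h3 _ (by omega))⟩
  · obtain ⟨K, hK⟩ := Gc.one (d := 3) (q := 2) (by norm_num) le_rfl (by norm_num) hG A
    refine ⟨K, fun N hN hb => ?_⟩
    have e3 : |((8 : ℕ) : ℤ)| ≤ 2 ^ N := by
      rw [Nat.abs_cast]
      exact_mod_cast h3 N (by omega)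
    obtain ⟨⟨i, hi, k, hk1, hk2, hk⟩, hj⟩ := hK ((8 : ℕ) : ℤ) N (by omega) e3
      (by rw [blocksUpTo_eq]; exact hb)
    refine ⟨⟨k, hk1, hk2, (per_iff k 8).2 ?_⟩, fun j => ?_⟩
    · rw [← Function.iterate_add_apply, Si_iter, Si_iter] at hk
      have hk' : S^[k + i] 8 = S^[i] 8 := by exact_mod_cast hk
      rw [add_comm, Function.iterate_add_apply] at hk'
      exact S_inj.iterate i hk'
    · have := hj j
      rw [Si_iter, Nat.abs_cast] at this
      exact_mod_cast this

end Pool.Agent.Results.MP_190a72_nt.ResidueBlocks
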